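import Mathlib

/-!
# MP_0e3657_pr: entropy of convolutions on countable groups, with values in `[0, ∞]`
-/

set_option autoImplicit false

open scoped ENNReal

namespace Pool.MP_0e3657_pr

/-- probability measures as functions -/
structure IsProb {X : Type*} (p : X → ℝ) : Prop where
  nonneg : ∀ x, 0 ≤ p x
  hasSum : HasSum p 1

/-- `-t log t` with values in `[0, ∞]` -/
noncomputable def Φ (t : ℝ) : ℝ≥0∞ := ENNReal.ofReal (Real.negMulLog t)

/-- the Shannon entropy with values in `[0, ∞]` -/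
noncomputable def entE {X : Type*} (p : X → ℝ) : ℝ≥0∞ := ∑' x, Φ (p x)

/-- convolution on a group -/
noncomputable def conv {G : Type*} [Group G] (μ σ : G → ℝ) (x : G) : ℝ := ∑' g, μ g * σ (g⁻¹ * x)

theorem IsProb.le_one {X : Type*} {p : X → ℝ} (hp : IsProb p) (x : X) : p x ≤ 1 :=
  le_hasSum hp.hasSum x fun y _ => hp.nonneg y

theorem negMulLog_nonneg' {t : ℝ} (h0 : 0 ≤ t) (h1 : t ≤ 1) : 0 ≤ Real.negMulLog t :=
  Real.negMulLog_nonneg h0 h1

/-- the tangent line at `q` -/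
theorem tangent {s q : ℝ} (hs : 0 ≤ s) (hq : 0 < q) : Real.negMulLog s ≤ -s * Real.log q + q - s := by
  rcases hs.eq_or_lt with rfl | hs
  · simp [hq.le]
  · have h1 := Real.log_le_sub_one_of_pos (div_pos hq hs)
    rw [Real.log_div hq.ne' hs.ne'] at h1
    have h2 : s * (q / s - 1) = q - s := by field_simp
    have h3 := mul_le_mul_of_nonneg_left h1 hs.le
    rw [h2] at h3
    unfold Real.negMulLog
    nlinarith

/-- countable subadditivity -/
theorem Φ_sum_le {I : Type*} {a : I → ℝ} {q : ℝ} (ha : ∀ i, 0 ≤ a i) (hq : HasSum a q) (hq1 : q ≤ 1) :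
    Φ q ≤ ∑' i, Φ (a i) := by
  have hle : ∀ i, a i ≤ q := fun i => le_hasSum hq i fun j _ => ha j
  have hq0 : 0 ≤ q := hq.nonneg ha
  have hl : 0 ≤ -Real.log q := by
    rcases hq0.eq_or_lt with h | h
    · rw [← h]; simp
    · linarith [Real.log_nonpos h.le hq1]
  have h1 : HasSum (fun i => a i * -Real.log q) (q * -Real.log q) := hq.mul_right _
  have h2 : Φ q = ∑' i, ENNReal.ofReal (a i * -Real.log q) := by
    rw [← ENNReal.ofReal_tsum_of_nonneg (fun i => mul_nonneg (ha i) hl) h1.summable, h1.tsum_eq]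
    unfold Φ Real.negMulLog
    congr 1
    ring
  rw [h2]
  refine ENNReal.tsum_le_tsum fun i => ENNReal.ofReal_le_ofReal ?_
  unfold Real.negMulLog
  rcases (ha i).eq_or_lt with h | h
  · rw [← h]; simp
  · have := Real.log_le_log h (hle i)
    nlinarith

theorem Φ_add_le {a b : ℝ} (ha : 0 ≤ a) (hb : 0 ≤ b) (h : a + b ≤ 1) : Φ (a + b) ≤ Φ a + Φ b := by
  have h1 : HasSum (fun i : Bool => cond i a b) (a + b) := by
    have := hasSum_fintype (fun i : Bool => cond i a b)
    simpa using this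
  have h2 := Φ_sum_le (a := fun i : Bool => cond i a b) (by intro i; cases i <;> simpa) h1 h
  rw [tsum_fintype] at h2
  simpa using h2

section group

variable {G : Type*} [Group G]

theorem summable_conv {a σ : G → ℝ} {s : ℝ} (ha : ∀ g, 0 ≤ a g) (hs : HasSum a s) (hσ : IsProb σ) (x : G) :
    Summable fun g => a g * σ (g⁻¹ * x) := by
  refine Summable.of_nonneg_of_le (fun g => mul_nonneg (ha g) (hσ.nonneg _)) (fun g => ?_) hs.summable
  exact mul_le_of_le_one_right (ha g) (hσ.le_one _)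

theorem conv_nonneg {a σ : G → ℝ} (ha : ∀ g, 0 ≤ a g) (hσ : IsProb σ) (x : G) : 0 ≤ conv a σ x :=
  tsum_nonneg fun g => mul_nonneg (ha g) (hσ.nonneg _)

theorem hasSum_shift {σ : G → ℝ} (hσ : IsProb σ) (g : G) : HasSum (fun x => σ (g⁻¹ * x)) 1 :=
  (Equiv.mulLeft g⁻¹).hasSum_iff.2 hσ.hasSum

/-- the total mass of `a * σ` -/
theorem hasSum_conv {a σ : G → ℝ} {s : ℝ} (ha : ∀ g, 0 ≤ a g) (hs : HasSum a s) (hσ : IsProb σ) :
    HasSum (conv a σ) s := by
  have h1 : ∀ g, HasSum (fun x => a g * σ (g⁻¹ * x)) (a g) := fun g => by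
    simpa using (hasSum_shift hσ g).mul_left (a g)
  have h2 : Summable fun p : G × G => a p.1 * σ (p.1⁻¹ * p.2) := by
    rw [summable_prod_of_nonneg fun p => mul_nonneg (ha _) (hσ.nonneg _)]
    refine ⟨fun g => (h1 g).summable, ?_⟩
    have h3 : (fun g => ∑' x, a g * σ (g⁻¹ * x)) = a := funext fun g => (h1 g).tsum_eq
    simp only
    rw [h3]
    exact hs.summable
  have h3 : HasSum (fun p : G × G => a p.1 * σ (p.1⁻¹ * p.2)) s := by
    have h4 := h2.hasSum
    have h5 := h4.prod_fiberwise h1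
    rwa [hs.unique h5] at *
  have h4 : HasSum (fun p : G × G => a p.2 * σ (p.2⁻¹ * p.1)) s := (Equiv.prodComm G G).hasSum_iff.2 h3
  exact h4.prod_fiberwise fun x => (summable_conv ha hs hσ x).hasSum

theorem isProb_conv {μ σ : G → ℝ} (hμ : IsProb μ) (hσ : IsProb σ) : IsProb (conv μ σ) :=
  ⟨conv_nonneg hμ.nonneg hσ, hasSum_conv hμ.nonneg hμ.hasSum hσ⟩

theorem entE_shift {σ : G → ℝ} (g : G) : ∑' x, Φ (σ (g⁻¹ * x)) = entE σ :=
  (Equiv.mulLeft g⁻¹).tsum_eq fun x => Φ (σ x)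

end group

end Pool.MP_0e3657_pr
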