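import Pool.Agent.Lib_MP_0e3657_pr.Ent

/-!
# MP_0e3657_pr: comparison of the entropies of `μ * σ` and `μ' * σ`, uniform in `σ`
-/

set_option autoImplicit false

open scoped ENNReal

namespace Pool.MP_0e3657_pr

theorem Φ_mul {b s : ℝ} (hb : 0 ≤ b) (hb1 : b ≤ 1) (hs : 0 ≤ s) (hs1 : s ≤ 1) :
    Φ (b * s) = ENNReal.ofReal b * Φ s + ENNReal.ofReal s * Φ b := by
  unfold Φ
  rw [Real.negMulLog_mul, ENNReal.ofReal_add, add_comm, ENNReal.ofReal_mul hb, ENNReal.ofReal_mul hs]
  · exact mul_nonneg hs (negMulLog_nonneg' hb hb1)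
  · exact mul_nonneg hb (negMulLog_nonneg' hs hs1)

section group

variable {G : Type*} [Group G]

theorem tsum_Φ_mul {σ : G → ℝ} (hσ : IsProb σ) {b : ℝ} (hb : 0 ≤ b) (hb1 : b ≤ 1) (g : G) :
    ∑' x, Φ (b * σ (g⁻¹ * x)) = ENNReal.ofReal b * entE σ + Φ b := by
  have h1 : ∑' x, Φ (b * σ (g⁻¹ * x)) = ∑' x, Φ (b * σ x) := (Equiv.mulLeft g⁻¹).tsum_eq fun x => Φ (b * σ x)
  have h2 : ∀ x, Φ (b * σ x) = ENNReal.ofReal b * Φ (σ x) + ENNReal.ofReal (σ x) * Φ b := fun x =>
    Φ_mul hb hb1 (hσ.nonneg x) (hσ.le_one x)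
  rw [h1]
  simp_rw [h2]
  rw [ENNReal.tsum_add, ENNReal.tsum_mul_left, ENNReal.tsum_mul_right,
    ← ENNReal.ofReal_tsum_of_nonneg hσ.nonneg hσ.hasSum.summable, hσ.hasSum.tsum_eq]
  simp [entE]

theorem conv_add {a b σ : G → ℝ} {s t : ℝ} (ha : ∀ g, 0 ≤ a g) (hb : ∀ g, 0 ≤ b g) (hs : HasSum a s)
    (ht : HasSum b t) (hσ : IsProb σ) (x : G) : conv (fun g => a g + b g) σ x = conv a σ x + conv b σ x := by
  unfold conv
  rw [← (summable_conv ha hs hσ x).tsum_add (summable_conv hb ht hσ x)]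
  exact tsum_congr fun g => by ring

theorem isProb_add {a b : G → ℝ} {s t : ℝ} (ha : ∀ g, 0 ≤ a g) (hb : ∀ g, 0 ≤ b g) (hs : HasSum a s)
    (ht : HasSum b t) (hst : s + t = 1) : IsProb fun g => a g + b g :=
  ⟨fun g => add_nonneg (ha g) (hb g), hst ▸ hs.add ht⟩

theorem entE_upper {a b σ : G → ℝ} {s t : ℝ} (ha : ∀ g, 0 ≤ a g) (hb : ∀ g, 0 ≤ b g) (hs : HasSum a s)
    (ht : HasSum b t) (hst : s + t = 1) (hσ : IsProb σ) :
    entE (conv (fun g => a g + b g) σ) ≤ entE (conv a σ) + (ENNReal.ofReal t * entE σ + ∑' g, Φ (b g)) := by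
  have hP := isProb_add ha hb hs ht hst
  have hb1 : ∀ g, b g ≤ 1 := fun g => le_trans (le_add_of_nonneg_left (ha g)) (hP.le_one g)
  have hC := isProb_conv hP hσ
  have h1 : ∀ x, Φ (conv (fun g => a g + b g) σ x) ≤ Φ (conv a σ x) + ∑' g, Φ (b g * σ (g⁻¹ * x)) := fun x => by
    have hx := conv_add ha hb hs ht hσ x
    have hle := hC.le_one x
    rw [hx] at hle ⊢
    have hA := conv_nonneg ha hσ x
    have hB := conv_nonneg hb hσ x
    refine le_trans (Φ_add_le hA hB hle) (add_le_add le_rfl ?_)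
    exact Φ_sum_le (fun g => mul_nonneg (hb g) (hσ.nonneg _)) (summable_conv hb ht hσ x).hasSum (by linarith)
  have h2 : ∑' x, ∑' g, Φ (b g * σ (g⁻¹ * x)) = ENNReal.ofReal t * entE σ + ∑' g, Φ (b g) := by
    rw [ENNReal.tsum_comm]
    have h3 : ∀ g, ∑' x, Φ (b g * σ (g⁻¹ * x)) = ENNReal.ofReal (b g) * entE σ + Φ (b g) := fun g =>
      tsum_Φ_mul hσ (hb g) (hb1 g) g
    simp_rw [h3]
    rw [ENNReal.tsum_add, ENNReal.tsum_mul_right, ← ENNReal.ofReal_tsum_of_nonneg hb ht.summable, ht.tsum_eq]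
  rw [← h2]
  unfold entE
  rw [← ENNReal.tsum_add]
  exact ENNReal.tsum_le_tsum h1

theorem negMulLog_le_one {s : ℝ} (hs : 0 ≤ s) : Real.negMulLog s ≤ 1 := by
  have := tangent hs one_pos
  rw [Real.log_one] at this
  linarith

/-- the pointwise lower bound -/
theorem pointwise_lower {a b σ : G → ℝ} {s t : ℝ} (ha : ∀ g, 0 ≤ a g) (hb : ∀ g, 0 ≤ b g) (hs : HasSum a s)
    (ht : HasSum b t) (hst : s + t = 1) (hσ : IsProb σ) (x : G) :
    Real.negMulLog (conv a σ x) + ∑' g, b g * Real.negMulLog (σ (g⁻¹ * x)) ≤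
      Real.negMulLog (conv a σ x + conv b σ x) + conv a σ x * -Real.log s := by
  have hA := conv_nonneg ha hσ x
  have hB := conv_nonneg hb hσ x
  have hBs := (summable_conv hb ht hσ x)
  have hsum : Summable fun g => b g * Real.negMulLog (σ (g⁻¹ * x)) := by
    refine Summable.of_nonneg_of_le (fun g => mul_nonneg (hb g) (negMulLog_nonneg' (hσ.nonneg _) (hσ.le_one _)))
      (fun g => ?_) ht.summable
    exact mul_le_of_le_one_right (hb g) (negMulLog_le_one (hσ.nonneg _))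
  rcases (add_nonneg hA hB).eq_or_lt with hq | hq
  · have hA0 : conv a σ x = 0 := by linarith
    have hB0 : conv b σ x = 0 := by linarith
    have hz : ∀ g, b g * σ (g⁻¹ * x) = 0 := by
      have h1 : HasSum (fun g => b g * σ (g⁻¹ * x)) 0 := by
        have := hBs.hasSum
        rwa [show ∑' g, b g * σ (g⁻¹ * x) = 0 from hB0] at this
      have h2 := (hasSum_zero_iff_of_nonneg fun g => mul_nonneg (hb g) (hσ.nonneg _)).1 h1
      exact fun g => congrFun h2 g
    have h3 : ∀ g, b g * Real.negMulLog (σ (g⁻¹ * x)) = 0 := fun g => by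
      rcases mul_eq_zero.1 (hz g) with h | h
      · rw [h, zero_mul]
      · rw [h, Real.negMulLog_zero, mul_zero]
    simp_rw [h3]
    simp [hA0, hB0]
  · set q := conv a σ x + conv b σ x with hqdef
    -- the `a` part
    have h1 : Real.negMulLog (conv a σ x) - conv a σ x * -Real.log s ≤
        -conv a σ x * Real.log q + s * q - conv a σ x := by
      rcases (hs.nonneg ha).eq_or_lt with hs0 | hs0
      · have hz : a = 0 := by
          rw [← hs0] at hs
          exact (hasSum_zero_iff_of_nonneg ha).1 hs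
        have hz2 : conv a σ x = 0 := by rw [hz]; simp [conv]
        rw [hz2, ← hs0]
        simp
      have h2 := tangent (s := conv a σ x / s) (div_nonneg hA hs0.le) hq
      have h3 := mul_le_mul_of_nonneg_left h2 hs0.le
      have h4 : s * Real.negMulLog (conv a σ x / s) = Real.negMulLog (conv a σ x) - conv a σ x * -Real.log s := by
        rcases hA.eq_or_lt with h0 | h0
        · rw [← h0]; simp
        · unfold Real.negMulLog
          rw [Real.log_div h0.ne' hs0.ne']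
          field_simp
          ring
      rw [h4] at h3
      have h5 : s * (-(conv a σ x / s) * Real.log q + q - conv a σ x / s) =
          -conv a σ x * Real.log q + s * q - conv a σ x := by
        field_simp
      linarith
    -- the `b` part
    have h2 : ∑' g, b g * Real.negMulLog (σ (g⁻¹ * x)) ≤ -conv b σ x * Real.log q + t * q - conv b σ x := by
      have h3 : HasSum (fun g => b g * σ (g⁻¹ * x) * (-Real.log q - 1) + b g * q)
          (conv b σ x * (-Real.log q - 1) + t * q) := (hBs.hasSum.mul_right _).add (ht.mul_right _)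
      have h4 : ∑' g, b g * Real.negMulLog (σ (g⁻¹ * x)) ≤ conv b σ x * (-Real.log q - 1) + t * q := by
        rw [← h3.tsum_eq]
        refine hsum.tsum_le_tsum (fun g => ?_) h3.summable
        have h5 := mul_le_mul_of_nonneg_left (tangent (hσ.nonneg (g⁻¹ * x)) hq) (hb g)
        refine h5.trans (le_of_eq ?_)
        ring
      linarith
    have h3 : Real.negMulLog q = -(conv a σ x + conv b σ x) * Real.log q := by
      rw [← hqdef]; rfl
    have h4 : s * q + t * q = conv a σ x + conv b σ x := by rw [← add_mul, hst, one_mul]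
    rw [h3]
    nlinarith [h1, h2, h4]

theorem entE_lower {a b σ : G → ℝ} {s t : ℝ} (ha : ∀ g, 0 ≤ a g) (hb : ∀ g, 0 ≤ b g) (hs : HasSum a s)
    (ht : HasSum b t) (hst : s + t = 1) (hσ : IsProb σ) :
    entE (conv a σ) + ENNReal.ofReal t * entE σ ≤ entE (conv (fun g => a g + b g) σ) + Φ s := by
  have ht0 : 0 ≤ t := ht.nonneg hb
  have hs1 : s ≤ 1 := by linarith
  have hl : 0 ≤ -Real.log s := by linarith [Real.log_nonpos (hs.nonneg ha) hs1]
  have hP := isProb_add ha hb hs ht hst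
  have hC := isProb_conv hP hσ
  have hphi : ∀ g x, 0 ≤ Real.negMulLog (σ (g⁻¹ * x)) := fun g x => negMulLog_nonneg' (hσ.nonneg _) (hσ.le_one _)
  have h1 : ∀ x, Φ (conv a σ x) + ∑' g, ENNReal.ofReal (b g) * Φ (σ (g⁻¹ * x)) ≤
      Φ (conv (fun g => a g + b g) σ x) + ENNReal.ofReal (conv a σ x * -Real.log s) := fun x => by
    have hx := conv_add ha hb hs ht hσ x
    have hle := hC.le_one x
    rw [hx] at hle ⊢
    have hA := conv_nonneg ha hσ x
    have hB := conv_nonneg hb hσ x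
    have hsum : Summable fun g => b g * Real.negMulLog (σ (g⁻¹ * x)) := by
      refine Summable.of_nonneg_of_le (fun g => mul_nonneg (hb g) (hphi g x)) (fun g => ?_) ht.summable
      exact mul_le_of_le_one_right (hb g) (negMulLog_le_one (hσ.nonneg _))
    have h2 : ∑' g, ENNReal.ofReal (b g) * Φ (σ (g⁻¹ * x)) =
        ENNReal.ofReal (∑' g, b g * Real.negMulLog (σ (g⁻¹ * x))) := by
      rw [ENNReal.ofReal_tsum_of_nonneg (fun g => mul_nonneg (hb g) (hphi g x)) hsum]
      exact tsum_congr fun g => by rw [ENNReal.ofReal_mul (hb g)]; rfl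
    rw [h2]
    unfold Φ
    rw [← ENNReal.ofReal_add (negMulLog_nonneg' hA (by linarith)) (tsum_nonneg fun g => mul_nonneg (hb g) (hphi g x)),
      ← ENNReal.ofReal_add (negMulLog_nonneg' (by linarith) hle) (mul_nonneg hA hl)]
    exact ENNReal.ofReal_le_ofReal (pointwise_lower ha hb hs ht hst hσ x)
  have h2 : ∑' x, ∑' g, ENNReal.ofReal (b g) * Φ (σ (g⁻¹ * x)) = ENNReal.ofReal t * entE σ := by
    rw [ENNReal.tsum_comm]
    have h3 : ∀ g, ∑' x, ENNReal.ofReal (b g) * Φ (σ (g⁻¹ * x)) = ENNReal.ofReal (b g) * entE σ := fun g => by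
      rw [ENNReal.tsum_mul_left, entE_shift]
    simp_rw [h3]
    rw [ENNReal.tsum_mul_right, ← ENNReal.ofReal_tsum_of_nonneg hb ht.summable, ht.tsum_eq]
  have h3 : ∑' x, ENNReal.ofReal (conv a σ x * -Real.log s) = Φ s := by
    have h4 := (hasSum_conv ha hs hσ).mul_right (-Real.log s)
    rw [← ENNReal.ofReal_tsum_of_nonneg (fun x => mul_nonneg (conv_nonneg ha hσ x) hl) h4.summable, h4.tsum_eq]
    unfold Φ Real.negMulLog
    congr 1
    ring
  rw [← h2, ← h3]
  unfold entE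
  rw [← ENNReal.tsum_add, ← ENNReal.tsum_add]
  exact ENNReal.tsum_le_tsum h1

/-- the comparison, uniform in `σ` -/
theorem entE_compare {μ μ' σ : G → ℝ} {s : ℝ} (hμ : IsProb μ) (hμ' : IsProb μ') (hσ : IsProb σ)
    (hs : HasSum (fun g => min (μ g) (μ' g)) s) :
    entE (conv μ σ) ≤ entE (conv μ' σ) + (Φ s + ∑' g, Φ (μ g - min (μ g) (μ' g))) := by
  have ha : ∀ g, 0 ≤ min (μ g) (μ' g) := fun g => le_min (hμ.nonneg g) (hμ'.nonneg g)
  have hb : ∀ g, 0 ≤ μ g - min (μ g) (μ' g) := fun g => sub_nonneg.2 (min_le_left _ _)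
  have hb' : ∀ g, 0 ≤ μ' g - min (μ g) (μ' g) := fun g => sub_nonneg.2 (min_le_right _ _)
  have h1 := entE_upper ha hb hs (hμ.hasSum.sub hs) (by ring) hσ
  have h2 := entE_lower ha hb' hs (hμ'.hasSum.sub hs) (by ring) hσ
  have h3 : (fun g => min (μ g) (μ' g) + (μ g - min (μ g) (μ' g))) = μ := funext fun g => by ring
  have h4 : (fun g => min (μ g) (μ' g) + (μ' g - min (μ g) (μ' g))) = μ' := funext fun g => by ring
  rw [h3] at h1
  rw [h4] at h2
  calc entE (conv μ σ) ≤ _ := h1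
    _ = (entE (conv (fun g => min (μ g) (μ' g)) σ) + ENNReal.ofReal (1 - s) * entE σ) +
        ∑' g, Φ (μ g - min (μ g) (μ' g)) := by rw [add_assoc]
    _ ≤ (entE (conv μ' σ) + Φ s) + ∑' g, Φ (μ g - min (μ g) (μ' g)) := add_le_add h2 le_rfl
    _ = _ := by rw [add_assoc]

/-- `H(σ) ≤ H(μ * σ)` -/
theorem entE_le_conv {μ σ : G → ℝ} (hμ : IsProb μ) (hσ : IsProb σ) : entE σ ≤ entE (conv μ σ) := by
  have hz : HasSum (fun _ : G => (0 : ℝ)) 0 := hasSum_zero
  have h1 := entE_lower (a := fun _ : G => (0 : ℝ)) (b := μ) (fun _ => le_rfl) hμ.nonneg hz hμ.hasSum (by ring) hσ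
  have h2 : (fun g => (0 : ℝ) + μ g) = μ := funext fun g => zero_add _
  have h3 : entE (conv (fun _ : G => (0 : ℝ)) σ) = 0 := by
    have h4 : conv (fun _ : G => (0 : ℝ)) σ = fun _ => 0 := funext fun x => by simp [conv]
    rw [h4]
    simp [entE, Φ]
  rw [h2, h3] at h1
  simpa [Φ] using h1

/-- `H(μ * σ) ≤ H(μ) + H(σ)` -/
theorem entE_conv_le {μ σ : G → ℝ} (hμ : IsProb μ) (hσ : IsProb σ) : entE (conv μ σ) ≤ entE σ + entE μ := by
  have hz : HasSum (fun _ : G => (0 : ℝ)) 0 := hasSum_zero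
  have h1 := entE_upper (a := fun _ : G => (0 : ℝ)) (b := μ) (fun _ => le_rfl) hμ.nonneg hz hμ.hasSum (by ring) hσ
  have h2 : (fun g => (0 : ℝ) + μ g) = μ := funext fun g => zero_add _
  have h3 : entE (conv (fun _ : G => (0 : ℝ)) σ) = 0 := by
    have h4 : conv (fun _ : G => (0 : ℝ)) σ = fun _ => 0 := funext fun x => by simp [conv]
    rw [h4]
    simp [entE, Φ]
  rw [h2, h3] at h1
  simpa [entE] using h1

end group

end Pool.MP_0e3657_pr
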