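import Pool.Agent.Lib_MP_0e3657_pr.Spec

/-!
# MP_0e3657_pr: asymptotic entropy and the uniform gain of entropy
-/

set_option autoImplicit false

open scoped ENNReal
open Filter

namespace Pool.MP_0e3657_pr

/-- the Shannon entropy `-Σ p log p` -/
noncomputable def shannon {X : Type*} (p : X → ℝ) : ℝ := ∑' x, Real.negMulLog (p x)

/-- probability measures with finite Shannon entropy -/
structure FinEnt {X : Type*} (p : X → ℝ) : Prop where
  nonneg : ∀ x, 0 ≤ p x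
  hasSum : HasSum p 1
  summable : Summable fun x => Real.negMulLog (p x)

namespace FinEnt

variable {X : Type*} {p : X → ℝ}

theorem isProb (h : FinEnt p) : IsProb p := ⟨h.nonneg, h.hasSum⟩

theorem ne_top (h : FinEnt p) : entE p ≠ ⊤ := by
  rw [entE_of_summable h.isProb h.summable]
  exact ENNReal.ofReal_ne_top

theorem shannon_eq (h : FinEnt p) : shannon p = (entE p).toReal := by
  rw [entE_of_summable h.isProb h.summable, ENNReal.toReal_ofReal]
  · rfl
  · exact tsum_nonneg fun x => negMulLog_nonneg' (h.nonneg x) (h.isProb.le_one x)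

theorem of_ne_top (h : IsProb p) (h2 : entE p ≠ ⊤) : FinEnt p := ⟨h.nonneg, h.hasSum, summable_of_entE h h2⟩

theorem shannon_nonneg (h : FinEnt p) : 0 ≤ shannon p := by
  rw [h.shannon_eq]
  exact ENNReal.toReal_nonneg

end FinEnt

section group

variable {G : Type*} [Group G]

theorem FinEnt.conv {μ σ : G → ℝ} (hμ : FinEnt μ) (hσ : FinEnt σ) : FinEnt (conv μ σ) :=
  .of_ne_top (isProb_conv hμ.isProb hσ.isProb)
    (ne_top_of_le_ne_top (ENNReal.add_ne_top.2 ⟨hσ.ne_top, hμ.ne_top⟩) (entE_conv_le hμ.isProb hσ.isProb))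

theorem FinEnt.cpow {μ : G → ℝ} (hμ : FinEnt μ) (n : ℕ) : FinEnt (cpow μ n) :=
  .of_ne_top (isProb_cpow hμ.isProb n) (entE_cpow_ne_top hμ.isProb hμ.ne_top n)

theorem shannon_conv_le {μ σ : G → ℝ} (hμ : FinEnt μ) (hσ : FinEnt σ) :
    shannon (conv μ σ) ≤ shannon μ + shannon σ := by
  rw [(hμ.conv hσ).shannon_eq, hμ.shannon_eq, hσ.shannon_eq, ← ENNReal.toReal_add hμ.ne_top hσ.ne_top, add_comm]
  exact ENNReal.toReal_mono (ENNReal.add_ne_top.2 ⟨hσ.ne_top, hμ.ne_top⟩) (entE_conv_le hμ.isProb hσ.isProb)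

theorem shannon_le_conv {μ σ : G → ℝ} (hμ : FinEnt μ) (hσ : FinEnt σ) : shannon σ ≤ shannon (conv μ σ) := by
  rw [(hμ.conv hσ).shannon_eq, hσ.shannon_eq]
  exact ENNReal.toReal_mono (hμ.conv hσ).ne_top (entE_le_conv hμ.isProb hσ.isProb)

/-- the asymptotic entropy `lim H(μ^{*n}) / n` -/
noncomputable def asympEntropy (μ : G → ℝ) : ℝ := limUnder atTop fun n : ℕ => shannon (cpow μ n) / n

theorem subadditive_shannon {μ : G → ℝ} (hμ : FinEnt μ) : Subadditive fun n => shannon (cpow μ n) := fun m n => by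
  simp only
  rw [← cpow_add hμ.isProb m n]
  exact shannon_conv_le (hμ.cpow m) (hμ.cpow n)

theorem tendsto_asympEntropy {μ : G → ℝ} (hμ : FinEnt μ) :
    Tendsto (fun n : ℕ => shannon (cpow μ n) / n) atTop (nhds (asympEntropy μ)) := by
  have h := (subadditive_shannon hμ).tendsto_lim ⟨0, by
    rintro _ ⟨n, rfl⟩
    exact div_nonneg (hμ.cpow n).shannon_nonneg (Nat.cast_nonneg n)⟩
  have h2 := h.limUnder_eq
  unfold asympEntropy
  rw [h2]
  exact h

/-- the gain of entropy: the infimum, over all probability measures `σ` of finite entropy, of the larger of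
`H(τ * σ) - H(σ)` and `H(σ * τ) - H(σ)` -/
noncomputable def gain (τ : G → ℝ) : ℝ :=
  sInf {x : ℝ | ∃ σ : G → ℝ, FinEnt σ ∧ x = max (shannon (conv τ σ)) (shannon (conv σ τ)) - shannon σ}

/-- the uniform gain of entropy: the supremum over `j ≥ 1` of the gain of `μ^{*j}`, divided by `j` -/
noncomputable def uniformGain (μ : G → ℝ) : ℝ := ⨆ j : ℕ, gain (cpow μ (j + 1)) / ((j + 1 : ℕ) : ℝ)

theorem gain_set_nonneg {τ : G → ℝ} (hτ : FinEnt τ) :
    ∀ x ∈ {x : ℝ | ∃ σ : G → ℝ, FinEnt σ ∧ x = max (shannon (conv τ σ)) (shannon (conv σ τ)) - shannon σ},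
      0 ≤ x := by
  rintro x ⟨σ, hσ, rfl⟩
  exact sub_nonneg.2 ((shannon_le_conv hτ hσ).trans (le_max_left _ _))

theorem gain_nonneg {τ : G → ℝ} (hτ : FinEnt τ) : 0 ≤ gain τ := Real.sInf_nonneg (gain_set_nonneg hτ)

theorem gain_le {τ σ : G → ℝ} (hτ : FinEnt τ) (hσ : FinEnt σ) :
    shannon σ + gain τ ≤ max (shannon (conv τ σ)) (shannon (conv σ τ)) := by
  have h : gain τ ≤ max (shannon (conv τ σ)) (shannon (conv σ τ)) - shannon σ :=
    csInf_le ⟨0, gain_set_nonneg hτ⟩ ⟨σ, hσ, rfl⟩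
  linarith

theorem le_gain {τ : G → ℝ} {c : ℝ} (h : ∀ σ : G → ℝ, FinEnt σ → shannon σ + c ≤ shannon (conv τ σ)) :
    c ≤ gain τ := by
  have hne : FinEnt (cpow (fun _ : G => (0 : ℝ)) 0) := by
    refine .of_ne_top ?_ ?_
    · refine ⟨fun g => ?_, ?_⟩
      · unfold cpow; split_ifs <;> norm_num
      · have h := hasSum_single (f := cpow (fun _ : G => (0 : ℝ)) 0) (1 : G) (fun g hg => by simp [cpow, hg])
        have h2 : cpow (fun _ : G => (0 : ℝ)) 0 1 = 1 := by simp [cpow]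
        rwa [h2] at h
    · rw [entE_cpow_zero]; exact ENNReal.zero_ne_top
  refine le_csInf ⟨_, _, hne, rfl⟩ ?_
  rintro x ⟨σ, hσ, rfl⟩
  have := h σ hσ
  have h2 := le_max_left (shannon (conv τ σ)) (shannon (conv σ τ))
  linarith

/-- the modulus of comparison -/
noncomputable def modulus (τ τ' : G → ℝ) : ℝ≥0∞ :=
  Φ (∑' g, min (τ g) (τ' g)) + ∑' g, Φ (τ g - min (τ g) (τ' g))

theorem shannon_compare {τ τ' σ : G → ℝ} (hτ : FinEnt τ) (hτ' : FinEnt τ') (hσ : FinEnt σ)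
    (hE : modulus τ τ' ≠ ⊤) :
    max (shannon (conv τ σ)) (shannon (conv σ τ)) ≤
      max (shannon (conv τ' σ)) (shannon (conv σ τ')) + (modulus τ τ').toReal := by
  have hs := (summable_min hτ.isProb hτ'.isProb).hasSum
  have h1 := entE_compare hτ.isProb hτ'.isProb hσ.isProb hs
  have h2 := entE_compare_right hτ.isProb hτ'.isProb hσ.isProb hs
  have h3 : shannon (conv τ σ) ≤ shannon (conv τ' σ) + (modulus τ τ').toReal := by
    rw [(hτ.conv hσ).shannon_eq, (hτ'.conv hσ).shannon_eq, ← ENNReal.toReal_add (hτ'.conv hσ).ne_top hE]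
    exact ENNReal.toReal_mono (ENNReal.add_ne_top.2 ⟨(hτ'.conv hσ).ne_top, hE⟩) h1
  have h4 : shannon (conv σ τ) ≤ shannon (conv σ τ') + (modulus τ τ').toReal := by
    rw [(hσ.conv hτ).shannon_eq, (hσ.conv hτ').shannon_eq, ← ENNReal.toReal_add (hσ.conv hτ').ne_top hE]
    exact ENNReal.toReal_mono (ENNReal.add_ne_top.2 ⟨(hσ.conv hτ').ne_top, hE⟩) h2
  have h5 := le_max_left (shannon (conv τ' σ)) (shannon (conv σ τ'))
  have h6 := le_max_right (shannon (conv τ' σ)) (shannon (conv σ τ'))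
  exact max_le (by linarith) (by linarith)

theorem conv_one_right (μ σ : G → ℝ) : conv μ (cpow σ 0) = μ := by
  funext x
  unfold conv cpow
  rw [tsum_eq_single x]
  · simp
  · intro g hg
    have : g⁻¹ * x ≠ 1 := fun h => hg (inv_mul_eq_one.1 h)
    simp [this]

theorem cpow_one (μ : G → ℝ) : cpow μ 1 = μ := conv_one_right μ μ

theorem walk_lower {τ τ' : G → ℝ} (hτ : FinEnt τ) (hτ' : FinEnt τ') (hE : modulus τ τ' ≠ ⊤) (n : ℕ) :
    n * (gain τ - (modulus τ τ').toReal) ≤ shannon (cpow τ' n) := by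
  induction n with
  | zero => simpa using (hτ'.cpow 0).shannon_nonneg
  | succ n ih =>
    have h1 := gain_le hτ (hτ'.cpow n)
    have h2 := shannon_compare hτ hτ' (hτ'.cpow n) hE
    have h3 : conv τ' (cpow τ' n) = cpow τ' (n + 1) := rfl
    have h4 : conv (cpow τ' n) τ' = cpow τ' (n + 1) := by
      have := cpow_add hτ'.isProb n 1
      rwa [cpow_one] at this
    rw [h3, h4, max_self] at h2
    push_cast
    linarith

theorem asymp_lower {μ μ' : G → ℝ} (hμ : FinEnt μ) (hμ' : FinEnt μ') (j : ℕ)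
    (hE : modulus (cpow μ (j + 1)) (cpow μ' (j + 1)) ≠ ⊤) :
    (gain (cpow μ (j + 1)) - (modulus (cpow μ (j + 1)) (cpow μ' (j + 1))).toReal) / ((j + 1 : ℕ) : ℝ) ≤
      asympEntropy μ' := by
  have hj : (0 : ℝ) < ((j + 1 : ℕ) : ℝ) := by positivity
  have h1 : Tendsto (fun n : ℕ => (j + 1) * n) atTop atTop :=
    tendsto_id.const_mul_atTop' (Nat.succ_pos j)
  have h2 := (tendsto_asympEntropy hμ').comp h1
  refine ge_of_tendsto h2 (eventually_atTop.2 ⟨1, fun n hn => ?_⟩)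
  have h3 := walk_lower (hμ.cpow (j + 1)) (hμ'.cpow (j + 1)) hE n
  rw [cpow_mul hμ'.isProb] at h3
  have hn' : (0 : ℝ) < n := by exact_mod_cast hn
  simp only [Function.comp]
  rw [div_le_div_iff₀ hj (by push_cast; positivity)]
  push_cast at h3 ⊢
  nlinarith

theorem modulus_self {τ : G → ℝ} (hτ : IsProb τ) : modulus τ τ = 0 := by
  unfold modulus
  simp [min_self, hτ.hasSum.tsum_eq, Φ]

theorem gain_div_le {μ : G → ℝ} (hμ : FinEnt μ) (j : ℕ) :
    gain (cpow μ (j + 1)) / ((j + 1 : ℕ) : ℝ) ≤ asympEntropy μ := by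
  have h := modulus_self (hμ.cpow (j + 1)).isProb
  have h1 := asymp_lower hμ hμ j (by rw [h]; exact ENNReal.zero_ne_top)
  rwa [h, ENNReal.toReal_zero, sub_zero] at h1

theorem bddAbove_gain {μ : G → ℝ} (hμ : FinEnt μ) :
    BddAbove (Set.range fun j : ℕ => gain (cpow μ (j + 1)) / ((j + 1 : ℕ) : ℝ)) :=
  ⟨asympEntropy μ, by rintro _ ⟨j, rfl⟩; exact gain_div_le hμ j⟩

theorem uniformGain_le {μ : G → ℝ} (hμ : FinEnt μ) : uniformGain μ ≤ asympEntropy μ :=
  ciSup_le fun j => gain_div_le hμ j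

theorem uniformGain_nonneg {μ : G → ℝ} (hμ : FinEnt μ) : 0 ≤ uniformGain μ :=
  le_trans (div_nonneg (gain_nonneg (hμ.cpow _)) (by positivity)) (le_ciSup (bddAbove_gain hμ) 0)

theorem uniformGain_spectral {μ : G → ℝ} (hμ : FinEnt μ) {j : ℕ} (hj : 1 ≤ j) {ρ : ℝ} (hρ : 0 < ρ)
    (hN : NormLe (cpow μ j) ρ) : -(2 / j) * Real.log ρ ≤ uniformGain μ := by
  obtain ⟨i, rfl⟩ : ∃ i, j = i + 1 := ⟨j - 1, by omega⟩
  rcases le_total ρ 1 with h1 | h1
  · have h2 : -2 * Real.log ρ ≤ gain (cpow μ (i + 1)) := by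
      refine le_gain fun σ hσ => ?_
      have h3 := entE_spectral hρ h1 (hμ.cpow (i + 1)).isProb hσ.isProb hN
      have h4 : 0 ≤ -2 * Real.log ρ := by linarith [Real.log_nonpos hρ.le h1]
      have h5 := ENNReal.toReal_mono ((hμ.cpow (i + 1)).conv hσ).ne_top h3
      rw [ENNReal.toReal_add hσ.ne_top ENNReal.ofReal_ne_top, ENNReal.toReal_ofReal h4] at h5
      rw [hσ.shannon_eq, ((hμ.cpow (i + 1)).conv hσ).shannon_eq]
      exact h5
    have h3 : -(2 / ((i + 1 : ℕ) : ℝ)) * Real.log ρ = (-2 * Real.log ρ) / ((i + 1 : ℕ) : ℝ) := by ring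
    rw [h3]
    exact (div_le_div_of_nonneg_right h2 (by positivity)).trans (le_ciSup (bddAbove_gain hμ) i)
  · refine le_trans ?_ (uniformGain_nonneg hμ)
    have := Real.log_nonneg h1
    have h2 : (0 : ℝ) ≤ 2 / ((i + 1 : ℕ) : ℝ) := by positivity
    nlinarith

theorem tendsto_modulus {μ : G → ℝ} {μk : ℕ → G → ℝ} (hμ : FinEnt μ) (hk : ∀ k, FinEnt (μk k))
    (hlim : ∀ g, Tendsto (fun k => μk k g) atTop (nhds (μ g))) :
    Tendsto (fun k => modulus μ (μk k)) atTop (nhds 0) := by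
  have h1 := tendsto_Φ hμ.isProb hμ.ne_top (fun k => (hk k).isProb) hlim
  have h2 := tendsto_min hμ.isProb (fun k => (hk k).isProb) hlim
  have h3 : Tendsto (fun k => Φ (∑' g, min (μ g) (μk k g))) atTop (nhds 0) := by
    have h4 := (ENNReal.continuous_ofReal.comp Real.continuous_negMulLog).tendsto 1
    have h5 := h4.comp h2
    simp only [Function.comp, Real.negMulLog_one, ENNReal.ofReal_zero] at h5
    exact h5
  have h4 := h3.add h1
  rw [add_zero] at h4
  exact h4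

theorem gain_compare {τ τ' : G → ℝ} (hτ : FinEnt τ) (hτ' : FinEnt τ') (hE : modulus τ τ' ≠ ⊤) :
    gain τ - (modulus τ τ').toReal ≤ gain τ' := by
  have hne : FinEnt (cpow τ 0) := hτ.cpow 0
  refine le_csInf ⟨_, _, hne, rfl⟩ ?_
  rintro x ⟨σ, hσ, rfl⟩
  have h1 := gain_le hτ hσ
  have h2 := shannon_compare hτ hτ' hσ hE
  linarith

/-- the uniform gain of entropy is lower semicontinuous -/
theorem eventually_lower {μ : G → ℝ} {μk : ℕ → G → ℝ} (hμ : FinEnt μ) (hk : ∀ k, FinEnt (μk k))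
    (hlim : ∀ g, Tendsto (fun k => μk k g) atTop (nhds (μ g))) {ε : ℝ} (hε : 0 < ε) :
    ∀ᶠ k in atTop, uniformGain μ - ε ≤ uniformGain (μk k) := by
  obtain ⟨j, hj⟩ : ∃ j : ℕ, uniformGain μ - ε / 2 < gain (cpow μ (j + 1)) / ((j + 1 : ℕ) : ℝ) :=
    exists_lt_of_lt_ciSup (show uniformGain μ - ε / 2 < uniformGain μ by linarith)
  have hj0 : (0 : ℝ) < ((j + 1 : ℕ) : ℝ) := by positivity
  have hj1 : (1 : ℝ) ≤ ((j + 1 : ℕ) : ℝ) := by exact_mod_cast Nat.succ_le_succ (Nat.zero_le j)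
  have h1 := tendsto_modulus (hμ.cpow (j + 1)) (fun k => (hk k).cpow (j + 1))
    (fun g => cpow_tendsto hμ.isProb (fun k => (hk k).isProb) hlim (j + 1) g)
  have h2 : ∀ᶠ k in atTop, modulus (cpow μ (j + 1)) (cpow (μk k) (j + 1)) < ENNReal.ofReal (ε / 2) :=
    h1.eventually_lt_const (by rw [ENNReal.ofReal_pos]; linarith)
  filter_upwards [h2] with k hk2
  have h3 := gain_compare (hμ.cpow (j + 1)) ((hk k).cpow (j + 1)) (ne_top_of_lt hk2)
  have h4 : (modulus (cpow μ (j + 1)) (cpow (μk k) (j + 1))).toReal ≤ ε / 2 :=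
    ENNReal.toReal_le_of_le_ofReal (by linarith) hk2.le
  have h5 : gain (cpow (μk k) (j + 1)) / ((j + 1 : ℕ) : ℝ) ≤ uniformGain (μk k) :=
    le_ciSup (bddAbove_gain (hk k)) j
  have h6 := div_le_div_of_nonneg_right h3 hj0.le
  rw [sub_div] at h6
  have h7 : (modulus (cpow μ (j + 1)) (cpow (μk k) (j + 1))).toReal / ((j + 1 : ℕ) : ℝ) ≤ ε / 2 := by
    refine (div_le_self ENNReal.toReal_nonneg hj1).trans h4
  linarith

end group

end Pool.MP_0e3657_pr
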