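import Pool.Agent.Lib_MP_0e3657_pr.Gain

/-!
# MP_0e3657_pr: convolution powers and pointwise limits
-/

set_option autoImplicit false

open scoped ENNReal
open Filter

namespace Pool.MP_0e3657_pr

/-- `φ(b) ≤ φ(u) + u` for `0 ≤ b ≤ u ≤ 1` -/
theorem negMulLog_le_of_le {b u : ℝ} (hb : 0 ≤ b) (hbu : b ≤ u) (hu : u ≤ 1) :
    Real.negMulLog b ≤ Real.negMulLog u + u := by
  rcases (hb.trans hbu).eq_or_lt with h | h
  · have : b = 0 := le_antisymm (by linarith) hb
    rw [this, ← h]
    simp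
  · have h1 := tangent hb h
    have h2 : 0 ≤ -Real.log u := by linarith [Real.log_nonpos h.le hu]
    unfold Real.negMulLog at *
    nlinarith

theorem summable_of_entE {X : Type*} {p : X → ℝ} (hp : IsProb p) (h : entE p ≠ ⊤) :
    Summable fun x => Real.negMulLog (p x) := by
  have h1 : ∀ x, 0 ≤ Real.negMulLog (p x) := fun x => negMulLog_nonneg' (hp.nonneg x) (hp.le_one x)
  have h2 : Summable fun x => (ENNReal.ofReal (Real.negMulLog (p x))).toReal := ENNReal.summable_toReal h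
  refine h2.congr fun x => ?_
  rw [ENNReal.toReal_ofReal (h1 x)]

theorem entE_of_summable {X : Type*} {p : X → ℝ} (hp : IsProb p) (h : Summable fun x => Real.negMulLog (p x)) :
    entE p = ENNReal.ofReal (∑' x, Real.negMulLog (p x)) := by
  rw [ENNReal.ofReal_tsum_of_nonneg (fun x => negMulLog_nonneg' (hp.nonneg x) (hp.le_one x)) h]
  rfl

section limits

variable {X : Type*}

theorem summable_min {μ μ' : X → ℝ} (hμ : IsProb μ) (hμ' : IsProb μ') : Summable fun g => min (μ g) (μ' g) :=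
  Summable.of_nonneg_of_le (fun g => le_min (hμ.nonneg g) (hμ'.nonneg g)) (fun _ => min_le_left _ _)
    hμ.hasSum.summable

/-- the common mass tends to `1` -/
theorem tendsto_min {μ : X → ℝ} {μk : ℕ → X → ℝ} (hμ : IsProb μ) (hk : ∀ k, IsProb (μk k))
    (hlim : ∀ g, Tendsto (fun k => μk k g) atTop (nhds (μ g))) :
    Tendsto (fun k => ∑' g, min (μ g) (μk k g)) atTop (nhds 1) := by
  have h := tendsto_tsum_of_dominated_convergence (f := fun k g => min (μ g) (μk k g)) (g := μ)
    (bound := μ) (𝓕 := atTop) hμ.hasSum.summable (fun g => by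
      have h1 : Tendsto (fun k => min (μ g) (μk k g)) atTop (nhds (min (μ g) (μ g))) :=
        tendsto_const_nhds.min (hlim g)
      rwa [min_self] at h1) (Eventually.of_forall fun k g => by
      rw [Real.norm_of_nonneg (le_min (hμ.nonneg g) ((hk k).nonneg g))]
      exact min_le_left _ _)
  rwa [hμ.hasSum.tsum_eq] at h

theorem tendsto_Φ {μ : X → ℝ} {μk : ℕ → X → ℝ} (hμ : IsProb μ) (hent : entE μ ≠ ⊤) (hk : ∀ k, IsProb (μk k))
    (hlim : ∀ g, Tendsto (fun k => μk k g) atTop (nhds (μ g))) :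
    Tendsto (fun k => ∑' g, Φ (μ g - min (μ g) (μk k g))) atTop (nhds 0) := by
  have hb : ∀ k g, 0 ≤ μ g - min (μ g) (μk k g) := fun k g => sub_nonneg.2 (min_le_left _ _)
  have hb2 : ∀ k g, μ g - min (μ g) (μk k g) ≤ μ g := fun k g => by
    have := le_min (hμ.nonneg g) ((hk k).nonneg g)
    linarith
  have hn : ∀ k g, 0 ≤ Real.negMulLog (μ g - min (μ g) (μk k g)) := fun k g =>
    negMulLog_nonneg' (hb k g) ((hb2 k g).trans (hμ.le_one g))
  have hle : ∀ k g, Real.negMulLog (μ g - min (μ g) (μk k g)) ≤ Real.negMulLog (μ g) + μ g := fun k g =>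
    negMulLog_le_of_le (hb k g) (hb2 k g) (hμ.le_one g)
  have hbs : Summable fun g => Real.negMulLog (μ g) + μ g := (summable_of_entE hμ hent).add hμ.hasSum.summable
  have h := tendsto_tsum_of_dominated_convergence (f := fun k g => Real.negMulLog (μ g - min (μ g) (μk k g)))
    (g := fun _ => (0 : ℝ)) (bound := fun g => Real.negMulLog (μ g) + μ g) (𝓕 := atTop) hbs (fun g => by
      have h1 : Tendsto (fun k => μ g - min (μ g) (μk k g)) atTop (nhds (μ g - min (μ g) (μ g))) :=
        tendsto_const_nhds.sub (tendsto_const_nhds.min (hlim g))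
      rw [min_self, sub_self] at h1
      have h2 := (Real.continuous_negMulLog.tendsto 0).comp h1
      rwa [Real.negMulLog_zero] at h2) (Eventually.of_forall fun k g => by
      rw [Real.norm_of_nonneg (hn k g)]
      exact hle k g)
  rw [tsum_zero] at h
  have h2 : ∀ k, ∑' g, Φ (μ g - min (μ g) (μk k g)) =
      ENNReal.ofReal (∑' g, Real.negMulLog (μ g - min (μ g) (μk k g))) := fun k => by
    rw [ENNReal.ofReal_tsum_of_nonneg (hn k) (Summable.of_nonneg_of_le (hn k) (hle k) hbs)]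
    rfl
  simp_rw [h2]
  have h3 := (ENNReal.continuous_ofReal.tendsto 0).comp h
  rwa [ENNReal.ofReal_zero] at h3

/-- `Σ |μ_k - μ| → 0` -/
theorem tendsto_abs {μ : X → ℝ} {μk : ℕ → X → ℝ} (hμ : IsProb μ) (hk : ∀ k, IsProb (μk k))
    (hlim : ∀ g, Tendsto (fun k => μk k g) atTop (nhds (μ g))) :
    Tendsto (fun k => ∑' g, |μk k g - μ g|) atTop (nhds 0) := by
  have h1 : ∀ k, ∑' g, |μk k g - μ g| = 2 - 2 * ∑' g, min (μ g) (μk k g) := fun k => by
    have h2 : ∀ g, |μk k g - μ g| = μk k g + μ g - 2 * min (μ g) (μk k g) := fun g => by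
      rcases le_total (μ g) (μk k g) with h | h
      · rw [abs_of_nonneg (by linarith), min_eq_left h]; ring
      · rw [abs_of_nonpos (by linarith), min_eq_right h]; ring
    have h3 : HasSum (fun g => μk k g + μ g - 2 * min (μ g) (μk k g))
        (1 + 1 - 2 * ∑' g, min (μ g) (μk k g)) :=
      ((hk k).hasSum.add hμ.hasSum).sub ((summable_min hμ (hk k)).hasSum.mul_left 2)
    simp_rw [h2]
    rw [h3.tsum_eq]
    ring
  simp_rw [h1]
  have h2 := (tendsto_min hμ hk hlim).const_mul 2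
  have h3 := (tendsto_const_nhds (x := (2 : ℝ))).sub h2
  simpa using h3

end limits

section group

variable {G : Type*} [Group G]

theorem conv_tendsto {μ σ : G → ℝ} {μk σk : ℕ → G → ℝ} (hμ : IsProb μ) (hk : ∀ k, IsProb (μk k))
    (hlim : ∀ g, Tendsto (fun k => μk k g) atTop (nhds (μ g))) (hσk : ∀ k, IsProb (σk k))
    (hlim2 : ∀ g, Tendsto (fun k => σk k g) atTop (nhds (σ g))) (x : G) :
    Tendsto (fun k => conv (μk k) (σk k) x) atTop (nhds (conv μ σ x)) := by
  have h1 : Tendsto (fun k => conv μ (σk k) x) atTop (nhds (conv μ σ x)) := by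
    refine tendsto_tsum_of_dominated_convergence (bound := μ) hμ.hasSum.summable
      (fun g => (hlim2 _).const_mul _) (Eventually.of_forall fun k g => ?_)
    rw [Real.norm_of_nonneg (mul_nonneg (hμ.nonneg g) ((hσk k).nonneg _))]
    exact mul_le_of_le_one_right (hμ.nonneg g) ((hσk k).le_one _)
  have h2 : Tendsto (fun k => conv (μk k) (σk k) x - conv μ (σk k) x) atTop (nhds 0) := by
    refine squeeze_zero_norm (fun k => ?_) (tendsto_abs hμ hk hlim)
    have hs1 := summable_conv (hk k).nonneg (hk k).hasSum (hσk k) x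
    have hs2 := summable_conv hμ.nonneg hμ.hasSum (hσk k) x
    have hs3 : Summable fun g => |μk k g - μ g| := ((hk k).hasSum.summable.sub hμ.hasSum.summable).abs
    have hb : ∀ g, ‖μk k g * σk k (g⁻¹ * x) - μ g * σk k (g⁻¹ * x)‖ ≤ |μk k g - μ g| := fun g => by
      rw [← sub_mul, norm_mul, Real.norm_eq_abs, Real.norm_of_nonneg ((hσk k).nonneg _)]
      exact mul_le_of_le_one_right (abs_nonneg _) ((hσk k).le_one _)
    unfold conv
    rw [← hs1.tsum_sub hs2]
    exact tsum_of_norm_bounded hs3.hasSum hb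
  have h3 := h2.add h1
  simpa using h3

theorem conv_assoc {μ τ σ : G → ℝ} (hμ : IsProb μ) (hτ : IsProb τ) (hσ : IsProb σ) :
    conv (conv μ τ) σ = conv μ (conv τ σ) := by
  funext x
  have hnn : ∀ h g, 0 ≤ μ h * τ (h⁻¹ * g) * σ (g⁻¹ * x) := fun h g =>
    mul_nonneg (mul_nonneg (hμ.nonneg _) (hτ.nonneg _)) (hσ.nonneg _)
  have hrow : ∀ h, HasSum (fun g => μ h * τ (h⁻¹ * g)) (μ h) := fun h => by
    simpa using (hasSum_shift hτ h).mul_left (μ h)
  have hsum0 : Summable fun p : G × G => μ p.1 * τ (p.1⁻¹ * p.2) := by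
    rw [summable_prod_of_nonneg fun p => mul_nonneg (hμ.nonneg _) (hτ.nonneg _)]
    refine ⟨fun g => (hrow g).summable, ?_⟩
    have h3 : (fun g => ∑' x, μ g * τ (g⁻¹ * x)) = μ := funext fun g => (hrow g).tsum_eq
    simp only
    rw [h3]
    exact hμ.hasSum.summable
  have hsum : Summable (Function.uncurry fun h g => μ h * τ (h⁻¹ * g) * σ (g⁻¹ * x)) := by
    refine Summable.of_nonneg_of_le (fun p => hnn p.1 p.2) (fun p => ?_) hsum0
    exact mul_le_of_le_one_right (mul_nonneg (hμ.nonneg _) (hτ.nonneg _)) (hσ.le_one _)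
  have h1 : conv (conv μ τ) σ x = ∑' g, ∑' h, μ h * τ (h⁻¹ * g) * σ (g⁻¹ * x) := by
    unfold conv
    refine tsum_congr fun g => ?_
    rw [← tsum_mul_right]
  have h2 : ∑' g, ∑' h, μ h * τ (h⁻¹ * g) * σ (g⁻¹ * x) = ∑' h, ∑' g, μ h * τ (h⁻¹ * g) * σ (g⁻¹ * x) :=
    hsum.tsum_comm
  rw [h1, h2]
  unfold conv
  refine tsum_congr fun h => ?_
  rw [← tsum_mul_left]
  rw [← (Equiv.mulLeft h).tsum_eq fun g => μ h * τ (h⁻¹ * g) * σ (g⁻¹ * x)]
  refine tsum_congr fun g => ?_
  simp only [Equiv.coe_mulLeft, inv_mul_cancel_left, mul_inv_rev]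
  rw [mul_assoc, mul_assoc]

open Classical in
/-- convolution powers -/
noncomputable def cpow (μ : G → ℝ) : ℕ → G → ℝ
  | 0 => fun g => if g = 1 then 1 else 0
  | n + 1 => conv μ (cpow μ n)

theorem isProb_cpow {μ : G → ℝ} (hμ : IsProb μ) : ∀ n, IsProb (cpow μ n)
  | 0 => by
    refine ⟨fun g => ?_, ?_⟩
    · unfold cpow; split_ifs <;> norm_num
    · have h := hasSum_single (f := cpow μ 0) (1 : G) (fun g hg => by simp [cpow, hg])
      have h2 : cpow μ 0 1 = 1 := by simp [cpow]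
      rwa [h2] at h
  | n + 1 => isProb_conv hμ (isProb_cpow hμ n)

theorem conv_one (σ : G → ℝ) (μ : G → ℝ) : conv (cpow μ 0) σ = σ := by
  funext x
  unfold conv cpow
  rw [tsum_eq_single 1]
  · simp
  · intro g hg
    simp [hg]

theorem cpow_add {μ : G → ℝ} (hμ : IsProb μ) (m n : ℕ) : conv (cpow μ m) (cpow μ n) = cpow μ (m + n) := by
  induction m with
  | zero => rw [conv_one, zero_add]
  | succ m ih =>
    show conv (conv μ (cpow μ m)) (cpow μ n) = _
    rw [conv_assoc hμ (isProb_cpow hμ m) (isProb_cpow hμ n), ih, show m + 1 + n = (m + n) + 1 by ring]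
    rfl

theorem cpow_mul {μ : G → ℝ} (hμ : IsProb μ) (j n : ℕ) : cpow (cpow μ j) n = cpow μ (j * n) := by
  induction n with
  | zero => rfl
  | succ n ih =>
    show conv (cpow μ j) (cpow (cpow μ j) n) = _
    rw [ih, cpow_add hμ, show j * (n + 1) = j + j * n by ring]

theorem cpow_tendsto {μ : G → ℝ} {μk : ℕ → G → ℝ} (hμ : IsProb μ) (hk : ∀ k, IsProb (μk k))
    (hlim : ∀ g, Tendsto (fun k => μk k g) atTop (nhds (μ g))) (n : ℕ) (x : G) :
    Tendsto (fun k => cpow (μk k) n x) atTop (nhds (cpow μ n x)) := by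
  induction n generalizing x with
  | zero => exact tendsto_const_nhds
  | succ n ih =>
    exact conv_tendsto hμ hk hlim (fun k => isProb_cpow (hk k) n) ih x

theorem entE_cpow_zero (μ : G → ℝ) : entE (cpow μ 0) = 0 := by
  unfold entE
  rw [ENNReal.tsum_eq_zero]
  intro g
  unfold cpow Φ
  split_ifs <;> simp

theorem entE_cpow_ne_top {μ : G → ℝ} (hμ : IsProb μ) (h : entE μ ≠ ⊤) : ∀ n, entE (cpow μ n) ≠ ⊤
  | 0 => by rw [entE_cpow_zero]; exact ENNReal.zero_ne_top
  | n + 1 => ne_top_of_le_ne_top (ENNReal.add_ne_top.2 ⟨entE_cpow_ne_top hμ h n, h⟩)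
      (entE_conv_le hμ (isProb_cpow hμ n))

end group

end Pool.MP_0e3657_pr
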