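import Pool.Agent.Lib_MP_0e3657_pr.Power

/-!
# MP_0e3657_pr: right convolutions, and the spectral lower bound of the entropy gain
-/

set_option autoImplicit false

open scoped ENNReal
open Filter

namespace Pool.MP_0e3657_pr

section group

variable {G : Type*} [Group G]

theorem isProb_inv {σ : G → ℝ} (hσ : IsProb σ) : IsProb fun x => σ x⁻¹ :=
  ⟨fun x => hσ.nonneg _, (Equiv.inv G).hasSum_iff.2 hσ.hasSum⟩

theorem entE_inv (σ : G → ℝ) : entE (fun x => σ x⁻¹) = entE σ := (Equiv.inv G).tsum_eq fun x => Φ (σ x)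

theorem conv_inv (σ τ : G → ℝ) (x : G) : conv σ τ x⁻¹ = conv (fun y => τ y⁻¹) (fun y => σ y⁻¹) x := by
  unfold conv
  rw [← (Equiv.mulLeft x).tsum_eq fun h => τ h⁻¹ * σ (h⁻¹ * x)⁻¹]
  refine tsum_congr fun g => ?_
  simp only [Equiv.coe_mulLeft, mul_inv_rev, inv_inv, mul_assoc]
  rw [inv_mul_cancel_left, mul_comm]

theorem entE_conv_inv (σ τ : G → ℝ) : entE (conv σ τ) = entE (conv (fun y => τ y⁻¹) fun y => σ y⁻¹) := by
  rw [← entE_inv (conv σ τ)]
  exact congrArg entE (funext fun x => conv_inv σ τ x)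

/-- the comparison for right convolutions -/
theorem entE_compare_right {μ μ' σ : G → ℝ} {s : ℝ} (hμ : IsProb μ) (hμ' : IsProb μ') (hσ : IsProb σ)
    (hs : HasSum (fun g => min (μ g) (μ' g)) s) :
    entE (conv σ μ) ≤ entE (conv σ μ') + (Φ s + ∑' g, Φ (μ g - min (μ g) (μ' g))) := by
  rw [entE_conv_inv σ μ, entE_conv_inv σ μ']
  have h1 := entE_compare (isProb_inv hμ) (isProb_inv hμ') (isProb_inv hσ) ((Equiv.inv G).hasSum_iff.2 hs)
  have h2 : ∑' g : G, Φ (μ g⁻¹ - min (μ g⁻¹) (μ' g⁻¹)) = ∑' g, Φ (μ g - min (μ g) (μ' g)) :=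
    (Equiv.inv G).tsum_eq fun g => Φ (μ g - min (μ g) (μ' g))
  rwa [h2] at h1

/-- the operator `φ ↦ μ * φ` has norm at most `ρ` on finitely supported functions -/
def NormLe (μ : G → ℝ) (ρ : ℝ) : Prop :=
  ∀ φ : G → ℝ, (Function.support φ).Finite → ∀ X : Finset G,
    ∑ x ∈ X, conv μ φ x ^ 2 ≤ ρ ^ 2 * ∑' y, φ y ^ 2

/-- the bilinear form on finite sets -/
theorem bilinear_le {μ σ g : G → ℝ} {ρ : ℝ} (hρ : 0 ≤ ρ) (hμ : IsProb μ) (hσ : IsProb σ) (hg : IsProb g)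
    (hN : NormLe μ ρ) (F : Finset (G × G)) :
    ∑ p ∈ F, μ p.1 * (Real.sqrt (σ (p.1⁻¹ * p.2)) * Real.sqrt (g p.2)) ≤ ρ := by
  classical
  -- finite supports
  let Y : Finset G := F.image fun p => p.1⁻¹ * p.2
  let X : Finset G := F.image Prod.snd
  let φ : G → ℝ := fun y => if y ∈ Y then Real.sqrt (σ y) else 0
  have hφ0 : ∀ y, 0 ≤ φ y := fun y => by
    simp only [φ]
    split_ifs
    · exact Real.sqrt_nonneg _
    · exact le_rfl
  have hφ1 : ∀ y, φ y ≤ 1 := fun y => by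
    simp only [φ]
    split_ifs
    · rw [Real.sqrt_le_one]
      exact hσ.le_one _
    · norm_num
  have hfin : (Function.support φ).Finite := Y.finite_toSet.subset fun y hy => by
    by_contra h
    have h0 : y ∉ Y := fun h' => h (Finset.mem_coe.2 h')
    exact hy (if_neg h0)
  have hsumm : ∀ x, Summable fun s => μ s * φ (s⁻¹ * x) := fun x =>
    Summable.of_nonneg_of_le (fun s => mul_nonneg (hμ.nonneg _) (hφ0 _))
      (fun s => mul_le_of_le_one_right (hμ.nonneg _) (hφ1 _)) hμ.hasSum.summable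
  -- the sum over `F` is at most the sum over `X` of `√g * (μ * φ)`
  have h1 : ∑ p ∈ F, μ p.1 * (Real.sqrt (σ (p.1⁻¹ * p.2)) * Real.sqrt (g p.2)) ≤
      ∑ x ∈ X, Real.sqrt (g x) * conv μ φ x := by
    have h2 : ∀ p ∈ F, μ p.1 * (Real.sqrt (σ (p.1⁻¹ * p.2)) * Real.sqrt (g p.2)) =
        Real.sqrt (g p.2) * (μ p.1 * φ (p.1⁻¹ * p.2)) := fun p hp => by
      have h3 : p.1⁻¹ * p.2 ∈ Y := Finset.mem_image_of_mem (fun p : G × G => p.1⁻¹ * p.2) hp
      simp only [φ, if_pos h3]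
      ring
    rw [Finset.sum_congr rfl h2]
    have h4 : ∑ p ∈ F, Real.sqrt (g p.2) * (μ p.1 * φ (p.1⁻¹ * p.2)) =
        ∑ x ∈ X, ∑ p ∈ F with p.2 = x, Real.sqrt (g p.2) * (μ p.1 * φ (p.1⁻¹ * p.2)) :=
      (Finset.sum_fiberwise_of_maps_to (fun p hp => Finset.mem_image_of_mem Prod.snd hp) _).symm
    rw [h4]
    refine Finset.sum_le_sum fun x _ => ?_
    have h5 : ∑ p ∈ F with p.2 = x, Real.sqrt (g p.2) * (μ p.1 * φ (p.1⁻¹ * p.2)) =
        Real.sqrt (g x) * ∑ s ∈ (F.filter fun p => p.2 = x).image Prod.fst, μ s * φ (s⁻¹ * x) := by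
      rw [Finset.sum_image, Finset.mul_sum]
      · refine Finset.sum_congr rfl fun p hp => ?_
        rw [(Finset.mem_filter.1 hp).2]
      · intro p hp q hq hpq
        have h6 := (Finset.mem_filter.1 (Finset.mem_coe.1 hp)).2
        have h7 := (Finset.mem_filter.1 (Finset.mem_coe.1 hq)).2
        exact Prod.ext hpq (h6.trans h7.symm)
    rw [h5]
    refine mul_le_mul_of_nonneg_left ?_ (Real.sqrt_nonneg _)
    exact (hsumm x).sum_le_tsum _ fun s _ => mul_nonneg (hμ.nonneg _) (hφ0 _)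
  refine h1.trans ?_
  -- Cauchy-Schwarz
  have h2 := Finset.sum_mul_sq_le_sq_mul_sq X (fun x => Real.sqrt (g x)) (conv μ φ)
  have h3 : ∑ x ∈ X, Real.sqrt (g x) ^ 2 ≤ 1 := by
    have : ∑ x ∈ X, Real.sqrt (g x) ^ 2 = ∑ x ∈ X, g x :=
      Finset.sum_congr rfl fun x _ => Real.sq_sqrt (hg.nonneg x)
    rw [this]
    exact sum_le_hasSum X (fun x _ => hg.nonneg x) hg.hasSum
  have h4 : ∑' y, φ y ^ 2 ≤ 1 := by
    rw [← hσ.hasSum.tsum_eq]
    have h5 : ∀ y, φ y ^ 2 ≤ σ y := fun y => by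
      simp only [φ]
      split_ifs
      · rw [Real.sq_sqrt (hσ.nonneg y)]
      · simpa using hσ.nonneg y
    exact (Summable.of_nonneg_of_le (fun y => sq_nonneg _) h5 hσ.hasSum.summable).tsum_le_tsum h5 hσ.hasSum.summable
  have h5 := hN φ hfin X
  have h6 : ∑ x ∈ X, conv μ φ x ^ 2 ≤ ρ ^ 2 := h5.trans (mul_le_of_le_one_right (sq_nonneg _) h4)
  have h7 : 0 ≤ ∑ x ∈ X, conv μ φ x ^ 2 := Finset.sum_nonneg fun x _ => sq_nonneg _
  have h8 : (∑ x ∈ X, Real.sqrt (g x) * conv μ φ x) ^ 2 ≤ ρ ^ 2 := by nlinarith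
  exact (abs_le_of_sq_le_sq' h8 hρ).2

/-- the spectral lower bound of the gain of entropy -/
theorem entE_spectral {μ σ : G → ℝ} {ρ : ℝ} (hρ : 0 < ρ) (hρ1 : ρ ≤ 1) (hμ : IsProb μ) (hσ : IsProb σ)
    (hN : NormLe μ ρ) : entE σ + ENNReal.ofReal (-2 * Real.log ρ) ≤ entE (conv μ σ) := by
  have hg := isProb_conv hμ hσ
  set g := conv μ σ with hgdef
  have hlρ : 0 ≤ -Real.log ρ := by linarith [Real.log_nonpos hρ.le hρ1]
  have hk : 0 ≤ -2 * Real.log ρ + 2 := by linarith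
  -- the pointwise inequality at `s`, `x`, with `y = s⁻¹ x`
  have hpt : ∀ s x, μ s * Real.negMulLog (σ (s⁻¹ * x)) + μ s * σ (s⁻¹ * x) * (-2 * Real.log ρ + 2) ≤
      μ s * σ (s⁻¹ * x) * -Real.log (g x) +
        2 / ρ * (μ s * (Real.sqrt (σ (s⁻¹ * x)) * Real.sqrt (g x))) := by
    intro s x
    rcases (hμ.nonneg s).eq_or_lt with h0 | h0
    · rw [← h0]; simp
    rcases (hσ.nonneg (s⁻¹ * x)).eq_or_lt with h1 | h1
    · rw [← h1]; simp
    have h2 : 0 < g x := by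
      refine lt_of_lt_of_le (mul_pos h0 h1) ?_
      exact (summable_conv hμ.nonneg hμ.hasSum hσ x).le_tsum s fun t _ => mul_nonneg (hμ.nonneg t) (hσ.nonneg _)
    set y := σ (s⁻¹ * x)
    have h3 : 0 < Real.sqrt (g x) / (Real.sqrt y * ρ) :=
      div_pos (Real.sqrt_pos.2 h2) (mul_pos (Real.sqrt_pos.2 h1) hρ)
    have h4 := Real.log_le_sub_one_of_pos h3
    rw [Real.log_div (Real.sqrt_pos.2 h2).ne' (mul_pos (Real.sqrt_pos.2 h1) hρ).ne',
      Real.log_mul (Real.sqrt_pos.2 h1).ne' hρ.ne', Real.log_sqrt h2.le, Real.log_sqrt h1.le] at h4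
    have h5 : μ s * y * (2 * (Real.sqrt (g x) / (Real.sqrt y * ρ))) = 2 / ρ * (μ s * (Real.sqrt y * Real.sqrt (g x))) := by
      have h6 : Real.sqrt y * Real.sqrt y = y := Real.mul_self_sqrt h1.le
      have h7 : Real.sqrt y ≠ 0 := (Real.sqrt_pos.2 h1).ne'
      field_simp
      nlinarith
    rw [← h5]
    have h6 : 0 < μ s * y := mul_pos h0 h1
    unfold Real.negMulLog
    nlinarith [mul_le_mul_of_nonneg_left h4 h6.le]
  -- in `[0, ∞]`
  have hE : ∀ s x, ENNReal.ofReal (μ s) * Φ (σ (s⁻¹ * x)) +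
      ENNReal.ofReal (μ s * σ (s⁻¹ * x)) * ENNReal.ofReal (-2 * Real.log ρ + 2) ≤
      ENNReal.ofReal (μ s * σ (s⁻¹ * x)) * ENNReal.ofReal (-Real.log (g x)) +
        ENNReal.ofReal (2 / ρ) * ENNReal.ofReal (μ s * (Real.sqrt (σ (s⁻¹ * x)) * Real.sqrt (g x))) := by
    intro s x
    have h1 := hμ.nonneg s
    have h2 := hσ.nonneg (s⁻¹ * x)
    have h3 : 0 ≤ -Real.log (g x) := by
      linarith [Real.log_nonpos (hg.nonneg x) (hg.le_one x)]
    have h4 := negMulLog_nonneg' h2 (hσ.le_one (s⁻¹ * x))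
    have h5 : 0 ≤ 2 / ρ := by positivity
    unfold Φ
    rw [← ENNReal.ofReal_mul h1, ← ENNReal.ofReal_mul (mul_nonneg h1 h2), ← ENNReal.ofReal_mul (mul_nonneg h1 h2),
      ← ENNReal.ofReal_mul h5, ← ENNReal.ofReal_add (mul_nonneg h1 h4) (mul_nonneg (mul_nonneg h1 h2) hk),
      ← ENNReal.ofReal_add (mul_nonneg (mul_nonneg h1 h2) h3) (by positivity)]
    exact ENNReal.ofReal_le_ofReal (hpt s x)
  -- sums
  have hsum1 : ∑' x, ∑' s, ENNReal.ofReal (μ s) * Φ (σ (s⁻¹ * x)) = entE σ := by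
    rw [ENNReal.tsum_comm]
    have : ∀ s, ∑' x, ENNReal.ofReal (μ s) * Φ (σ (s⁻¹ * x)) = ENNReal.ofReal (μ s) * entE σ := fun s => by
      rw [ENNReal.tsum_mul_left, entE_shift]
    simp_rw [this]
    rw [ENNReal.tsum_mul_right, ← ENNReal.ofReal_tsum_of_nonneg hμ.nonneg hμ.hasSum.summable, hμ.hasSum.tsum_eq]
    simp
  have hrow : ∀ x, ∑' s, ENNReal.ofReal (μ s * σ (s⁻¹ * x)) = ENNReal.ofReal (g x) := fun x => by
    rw [← ENNReal.ofReal_tsum_of_nonneg (fun s => mul_nonneg (hμ.nonneg _) (hσ.nonneg _))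
      (summable_conv hμ.nonneg hμ.hasSum hσ x)]
    rfl
  have hgsum : ∑' x, ENNReal.ofReal (g x) = 1 := by
    rw [← ENNReal.ofReal_tsum_of_nonneg hg.nonneg hg.hasSum.summable, hg.hasSum.tsum_eq]
    simp
  have hsum2 : ∑' x, ∑' s, ENNReal.ofReal (μ s * σ (s⁻¹ * x)) * ENNReal.ofReal (-2 * Real.log ρ + 2) =
      ENNReal.ofReal (-2 * Real.log ρ + 2) := by
    simp_rw [ENNReal.tsum_mul_right, hrow]
    rw [hgsum, one_mul]
  have hsum3 : ∑' x, ∑' s, ENNReal.ofReal (μ s * σ (s⁻¹ * x)) * ENNReal.ofReal (-Real.log (g x)) = entE g := by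
    simp_rw [ENNReal.tsum_mul_right, hrow]
    unfold entE Φ Real.negMulLog
    refine tsum_congr fun x => ?_
    rw [← ENNReal.ofReal_mul (hg.nonneg x)]
    congr 1
    ring
  have hsum4 : ∑' x, ∑' s, ENNReal.ofReal (2 / ρ) *
      ENNReal.ofReal (μ s * (Real.sqrt (σ (s⁻¹ * x)) * Real.sqrt (g x))) ≤ 2 := by
    simp_rw [ENNReal.tsum_mul_left]
    have h1 : ∑' x, ∑' s, ENNReal.ofReal (μ s * (Real.sqrt (σ (s⁻¹ * x)) * Real.sqrt (g x))) ≤ ENNReal.ofReal ρ := by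
      rw [ENNReal.tsum_comm]
      rw [← ENNReal.tsum_prod' (f := fun p : G × G =>
        ENNReal.ofReal (μ p.1 * (Real.sqrt (σ (p.1⁻¹ * p.2)) * Real.sqrt (g p.2))))]
      rw [ENNReal.tsum_eq_iSup_sum]
      refine iSup_le fun F => ?_
      rw [← ENNReal.ofReal_sum_of_nonneg fun p _ => mul_nonneg (hμ.nonneg _)
        (mul_nonneg (Real.sqrt_nonneg _) (Real.sqrt_nonneg _))]
      exact ENNReal.ofReal_le_ofReal (bilinear_le hρ.le hμ hσ hg hN F)
    refine (mul_le_mul_right h1 _).trans ?_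
    rw [← ENNReal.ofReal_mul (by positivity), div_mul_cancel₀ _ hρ.ne']
    simp
  have hfin : entE σ + ENNReal.ofReal (-2 * Real.log ρ + 2) ≤ entE g + 2 := by
    rw [← hsum1, ← hsum2, ← hsum3, ← ENNReal.tsum_add]
    refine le_trans ?_ (add_le_add le_rfl hsum4)
    rw [← ENNReal.tsum_add]
    refine ENNReal.tsum_le_tsum fun x => ?_
    rw [← ENNReal.tsum_add, ← ENNReal.tsum_add]
    exact ENNReal.tsum_le_tsum fun s => hE s x
  rw [ENNReal.ofReal_add (by linarith) (by norm_num), ← add_assoc, ENNReal.ofReal_ofNat] at hfin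
  exact (ENNReal.add_le_add_iff_right (by norm_num)).1 hfin

end group

end Pool.MP_0e3657_pr
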